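import Pool.Agent.Lib.MP_ccbbf6_gt.T1.Schur

/-!
# Continuity, openness of positive definiteness, connectedness argument
-/

set_option linter.unusedSectionVars false

namespace Pool.Agent.BL.T1

open Matrix MeasureTheory Set Filter Topology

section cont

variable {ι : Type*} [Fintype ι] [DecidableEq ι]
variable {X : Type*} [TopologicalSpace X]

lemma continuousWithinAt_det {K : X → Matrix ι ι ℝ} {s : Set X} {x : X}
    (h : ContinuousWithinAt K s x) : ContinuousWithinAt (fun y => (K y).det) s x :=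
  (Continuous.matrix_det continuous_id).continuousAt.comp_continuousWithinAt h

lemma continuousWithinAt_inv {K : X → Matrix ι ι ℝ} {s : Set X} {x : X}
    (h : ContinuousWithinAt K s x) (hd : (K x).det ≠ 0) :
    ContinuousWithinAt (fun y => (K y)⁻¹) s x := by
  have h1 : ContinuousWithinAt (fun y => (K y).adjugate) s x :=
    (Continuous.matrix_adjugate continuous_id).continuousAt.comp_continuousWithinAt h
  have h2 := (continuousWithinAt_det h).inv₀ hd
  have h3 : ContinuousWithinAt (fun y => ((K y).det)⁻¹ • (K y).adjugate) s x := h2.smul h1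
  simpa only [Matrix.inv_def, Ring.inverse_eq_inv'] using h3

lemma continuousWithinAt_qf {K : X → Matrix ι ι ℝ} {s : Set X} {x : X}
    (h : ContinuousWithinAt K s x) (v : ι → ℝ) : ContinuousWithinAt (fun y => qf (K y) v) s x := by
  have : Continuous (fun M : Matrix ι ι ℝ => qf M v) := by
    simp only [qf_eq_sum]
    fun_prop
  exact this.continuousAt.comp_continuousWithinAt h

lemma continuousOn_qf {K : X → Matrix ι ι ℝ} {s : Set X} (h : ContinuousOn K s) (v : ι → ℝ) :
    ContinuousOn (fun y => qf (K y) v) s := fun x hx => continuousWithinAt_qf (h x hx) v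

variable {m n : Type*} [Fintype m] [Fintype n] [DecidableEq m] [DecidableEq n]

lemma continuousWithinAt_blocks {K : X → Matrix (m ⊕ n) (m ⊕ n) ℝ} {s : Set X} {x : X}
    (h : ContinuousWithinAt K s x) :
    ContinuousWithinAt (fun y => (K y).toBlocks₁₁) s x ∧
    ContinuousWithinAt (fun y => (K y).toBlocks₁₂) s x ∧
    ContinuousWithinAt (fun y => (K y).toBlocks₂₁) s x ∧
    ContinuousWithinAt (fun y => (K y).toBlocks₂₂) s x := by
  refine ⟨?_, ?_, ?_, ?_⟩
  · exact (Continuous.matrix_submatrix continuous_id Sum.inl Sum.inl).continuousAt.comp_continuousWithinAt h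
  · exact (Continuous.matrix_submatrix continuous_id Sum.inl Sum.inr).continuousAt.comp_continuousWithinAt h
  · exact (Continuous.matrix_submatrix continuous_id Sum.inr Sum.inl).continuousAt.comp_continuousWithinAt h
  · exact (Continuous.matrix_submatrix continuous_id Sum.inr Sum.inr).continuousAt.comp_continuousWithinAt h

lemma continuousWithinAt_sch {K : X → Matrix (m ⊕ n) (m ⊕ n) ℝ} {s : Set X} {x : X}
    (h : ContinuousWithinAt K s x) (hd : (K x).toBlocks₂₂.det ≠ 0) :
    ContinuousWithinAt (fun y => sch (K y)) s x := by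
  obtain ⟨h1, h2, h3, h4⟩ := continuousWithinAt_blocks h
  have h5 := continuousWithinAt_inv h4 hd
  have h6 : ContinuousWithinAt (fun y => (K y).toBlocks₁₂ * ((K y).toBlocks₂₂)⁻¹) s x := by
    have := (Continuous.matrix_mul (continuous_fst (X := Matrix m n ℝ) (Y := Matrix n n ℝ))
      continuous_snd).continuousAt.comp_continuousWithinAt (h2.prodMk h5)
    exact this
  have h7 : ContinuousWithinAt
      (fun y => (K y).toBlocks₁₂ * ((K y).toBlocks₂₂)⁻¹ * (K y).toBlocks₂₁) s x := by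
    have := (Continuous.matrix_mul (continuous_fst (X := Matrix m n ℝ) (Y := Matrix n m ℝ))
      continuous_snd).continuousAt.comp_continuousWithinAt (h6.prodMk h3)
    exact this
  exact h1.sub h7

lemma continuousOn_sch {K : X → Matrix (m ⊕ n) (m ⊕ n) ℝ} {s : Set X}
    (h : ContinuousOn K s) (hd : ∀ x ∈ s, (K x).toBlocks₂₂.det ≠ 0) :
    ContinuousOn (fun y => sch (K y)) s := fun x hx => continuousWithinAt_sch (h x hx) (hd x hx)

end cont

section open_posDef

variable {ι : Type*} [Fintype ι] [DecidableEq ι]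

lemma dot_self_nonneg (v : ι → ℝ) : 0 ≤ v ⬝ᵥ v := by
  simp only [dotProduct]; exact Finset.sum_nonneg fun i _ => mul_self_nonneg _

lemma dot_self_pos {v : ι → ℝ} (hv : v ≠ 0) : 0 < v ⬝ᵥ v := by
  refine lt_of_le_of_ne (dot_self_nonneg v) fun h => hv ?_
  exact dotProduct_self_eq_zero.mp h.symm

/-- a positive definite matrix is bounded below -/
lemma exists_lower {M : Matrix ι ι ℝ} (hM : M.PosDef) :
    ∃ c > 0, ∀ v, c * (v ⬝ᵥ v) ≤ qf M v := by
  have hpos := (posDef_iff_qf.mp hM).2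
  set K : Set (ι → ℝ) := {v | v ⬝ᵥ v = 1} with hK
  have hcl : IsClosed K := isClosed_eq (by unfold dotProduct; fun_prop) continuous_const
  have hbd : Bornology.IsBounded K := by
    refine (Metric.isBounded_iff_subset_closedBall 0).mpr ⟨1, fun v hv => ?_⟩
    rw [Metric.mem_closedBall, dist_zero_right]
    refine (pi_norm_le_iff_of_nonneg zero_le_one).mpr fun i => ?_
    have h1 : v i * v i ≤ v ⬝ᵥ v :=
      Finset.single_le_sum (f := fun i => v i * v i) (fun j _ => mul_self_nonneg (v j))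
        (Finset.mem_univ i)
    have h2 : v ⬝ᵥ v = 1 := hv
    rw [Real.norm_eq_abs]
    rw [h2] at h1
    exact abs_le_one_iff_mul_self_le_one.mpr h1
  have hcomp : IsCompact K := Metric.isCompact_of_isClosed_isBounded hcl hbd
  have hnorm : ∀ v : ι → ℝ, v ≠ 0 → ((Real.sqrt (v ⬝ᵥ v))⁻¹ • v) ∈ K := by
    intro v hv
    have h1 := dot_self_pos hv
    simp only [hK, mem_ofPred_eq, smul_dotProduct, dotProduct_smul, smul_eq_mul]
    rw [← mul_assoc, ← mul_inv, Real.mul_self_sqrt h1.le, inv_mul_cancel₀ h1.ne']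
  have hcont : Continuous (fun v : ι → ℝ => qf M v) := by
    simp only [qf_eq_sum]; fun_prop
  rcases K.eq_empty_or_nonempty with he | hne
  · refine ⟨1, one_pos, fun v => ?_⟩
    by_cases hv : v = 0
    · subst hv; simp
    · exact absurd (hnorm v hv) (by rw [he]; exact notMem_empty _)
  · obtain ⟨v0, hv0, hmin⟩ := hcomp.exists_isMinOn hne hcont.continuousOn
    have hv0' : v0 ≠ 0 := by
      rintro rfl
      simp [hK] at hv0
    refine ⟨qf M v0, hpos v0 hv0', fun v => ?_⟩
    by_cases hv : v = 0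
    · subst hv; simp
    · have h1 := dot_self_pos hv
      have h2 : qf M v0 ≤ qf M ((Real.sqrt (v ⬝ᵥ v))⁻¹ • v) := hmin (hnorm v hv)
      rw [qf_smul_vec, inv_pow, Real.sq_sqrt h1.le] at h2
      have h3 : qf M v0 * (v ⬝ᵥ v) ≤ (v ⬝ᵥ v)⁻¹ * qf M v * (v ⬝ᵥ v) :=
        mul_le_mul_of_nonneg_right h2 h1.le
      have h4 : (v ⬝ᵥ v)⁻¹ * qf M v * (v ⬝ᵥ v) = qf M v := by field_simp
      linarith

/-- crude upper bound -/
lemma abs_qf_le (M : Matrix ι ι ℝ) (v : ι → ℝ) :
    |qf M v| ≤ (∑ i, ∑ j, |M i j|) * (v ⬝ᵥ v) := by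
  have hsq : ∀ i, v i * v i ≤ v ⬝ᵥ v := fun i =>
    Finset.single_le_sum (f := fun i => v i * v i) (fun j _ => mul_self_nonneg (v j))
        (Finset.mem_univ i)
  have hij : ∀ i j, |v i| * |v j| ≤ v ⬝ᵥ v := by
    intro i j
    have h1 := hsq i
    have h2 := hsq j
    have h3 : |v i| * |v j| ≤ (|v i| * |v i| + |v j| * |v j|) / 2 := by
      nlinarith [sq_nonneg (|v i| - |v j|)]
    rw [abs_mul_abs_self, abs_mul_abs_self] at h3
    linarith
  rw [qf_eq_sum, Finset.sum_mul]
  refine (Finset.abs_sum_le_sum_abs _ _).trans (Finset.sum_le_sum fun i _ => ?_)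
  rw [Finset.sum_mul]
  refine (Finset.abs_sum_le_sum_abs _ _).trans (Finset.sum_le_sum fun j _ => ?_)
  rw [abs_mul, abs_mul]
  calc |v i| * |M i j| * |v j| = |M i j| * (|v i| * |v j|) := by ring
    _ ≤ |M i j| * (v ⬝ᵥ v) := mul_le_mul_of_nonneg_left (hij i j) (abs_nonneg _)

lemma eventually_posDef {X : Type*} [TopologicalSpace X] {K : X → Matrix ι ι ℝ} {x : X}
    (hc : ContinuousAt K x) (hs : ∀ᶠ y in 𝓝 x, (K y).IsSymm) (hp : (K x).PosDef) :
    ∀ᶠ y in 𝓝 x, (K y).PosDef := by
  obtain ⟨c, hc0, hcl⟩ := exists_lower hp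
  have hcont : ContinuousAt (fun y => ∑ i, ∑ j, |K y i j - K x i j|) x := by
    have : Continuous (fun M : Matrix ι ι ℝ => ∑ i, ∑ j, |M i j - K x i j|) := by
      fun_prop
    exact this.continuousAt.comp hc
  have h0 : (∑ i, ∑ j, |K x i j - K x i j|) = 0 := by simp
  have hlt : ∀ᶠ y in 𝓝 x, (∑ i, ∑ j, |K y i j - K x i j|) < c := by
    have := hcont.tendsto
    rw [h0] at this
    exact this.eventually (gt_mem_nhds hc0)
  filter_upwards [hlt, hs] with y hy hsy
  refine posDef_iff_qf.mpr ⟨hsy, fun v hv => ?_⟩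
  have h1 : |qf (K y - K x) v| ≤ (∑ i, ∑ j, |K y i j - K x i j|) * (v ⬝ᵥ v) :=
    abs_qf_le (K y - K x) v
  have h2 := hcl v
  have h3 := dot_self_pos hv
  rw [qf_sub] at h1
  have h4 := (abs_le.mp h1).1
  have h5 : (∑ i, ∑ j, |K y i j - K x i j|) * (v ⬝ᵥ v) < c * (v ⬝ᵥ v) :=
    mul_lt_mul_of_pos_right hy h3
  linarith

/-- a continuous path of invertible symmetric matrices on an open interval which is positive
definite at one point is positive definite everywhere -/
lemma posDef_of_connected {K : ℝ → Matrix ι ι ℝ} {α β : ℝ}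
    (hc : ContinuousOn K (Ioo α β)) (hs : ∀ x ∈ Ioo α β, (K x).IsSymm)
    (hd : ∀ x ∈ Ioo α β, (K x).det ≠ 0) {x0 : ℝ} (hx0 : x0 ∈ Ioo α β) (hp : (K x0).PosDef) :
    ∀ x ∈ Ioo α β, (K x).PosDef := by
  set u : Set ℝ := {x | x ∈ Ioo α β ∧ (K x).PosDef} with hu
  set w : Set ℝ := {x | x ∈ Ioo α β ∧ ¬ (K x).PosDef} with hw
  have hcat : ∀ x ∈ Ioo α β, ContinuousAt K x := fun x hx =>
    (hc x hx).continuousAt (Ioo_mem_nhds hx.1 hx.2)
  have hev : ∀ x ∈ Ioo α β, ∀ᶠ y in 𝓝 x, y ∈ Ioo α β := fun x hx => Ioo_mem_nhds hx.1 hx.2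
  have huo : IsOpen u := by
    rw [isOpen_iff_mem_nhds]
    rintro x ⟨hx, hpx⟩
    have h1 := eventually_posDef (hcat x hx) ((hev x hx).mono fun y hy => hs y hy) hpx
    filter_upwards [h1, hev x hx] with y h1 h2 using ⟨h2, h1⟩
  have hwo : IsOpen w := by
    rw [isOpen_iff_mem_nhds]
    rintro x ⟨hx, hpx⟩
    have h1 : ∃ v, qf (K x) v < 0 := by
      by_contra hcon
      push Not at hcon
      have h2 : (K x).PosSemidef := posSemidef_iff_qf.mpr ⟨hs x hx, hcon⟩
      exact hpx (h2.posDef_iff_det_ne_zero.mpr (hd x hx))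
    obtain ⟨v, hv⟩ := h1
    have h3 : ContinuousAt (fun y => qf (K y) v) x := by
      have := continuousWithinAt_qf (s := univ) (hcat x hx).continuousWithinAt v
      exact continuousWithinAt_univ _ _ |>.mp this
    have h4 : ∀ᶠ y in 𝓝 x, qf (K y) v < 0 := h3.eventually (gt_mem_nhds hv)
    filter_upwards [h4, hev x hx] with y h1 h2
    refine ⟨h2, fun hcon => ?_⟩
    have := (posSemidef_iff_qf.mp hcon.posSemidef).2 v
    linarith
  have hdisj : Disjoint u w := by
    rw [Set.disjoint_left]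
    rintro x ⟨_, h1⟩ ⟨_, h2⟩
    exact h2 h1
  have hsub : Ioo α β ⊆ u ∪ w := by
    intro x hx
    by_cases h : (K x).PosDef
    · exact Or.inl ⟨hx, h⟩
    · exact Or.inr ⟨hx, h⟩
  have := (isPreconnected_Ioo (a := α) (b := β)).subset_left_of_subset_union huo hwo hdisj hsub
    ⟨x0, hx0, hx0, hp⟩
  exact fun x hx => (this hx).2

end open_posDef

end Pool.Agent.BL.T1
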