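import Pool.Agent.Lib.MP_ccbbf6_gt.T1.Super

/-!
# The Loewner inequalities for a pair `u < v` in `(0, 2π)`

`JD S Γ S2 Γ2`: `S` symmetric on `U = (0, 2π) \ {π}`, `S' = -Γ < 0`, `det (S u - S v) ≠ 0` for
`u < v ≠ u + π`, `S → +∞` at `0+`, `S₁₁ → +∞` at `π+`, the second diagonal blocks of `S` and `Γ`
extend continuously across `π` (`S2`, `Γ2`).
-/

set_option linter.unusedSectionVars false

namespace Pool.Agent.BL.T1

open Matrix MeasureTheory Set Filter Topology Real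

variable {m n : Type*} [Fintype m] [Fintype n] [DecidableEq m] [DecidableEq n]

/-- the punctured interval -/
def UU : Set ℝ := {x | 0 < x ∧ x < 2 * π ∧ x ≠ π}

structure JD (S Γ : ℝ → Matrix (m ⊕ n) (m ⊕ n) ℝ) (S2 Γ2 : ℝ → Matrix n n ℝ) : Prop where
  symm : ∀ x ∈ UU, (S x).IsSymm
  pos : ∀ x ∈ UU, (Γ x).PosDef
  cont : ∀ x ∈ UU, ContinuousAt Γ x
  deriv : ∀ x ∈ UU, ∀ i j, HasDerivAt (fun y => S y i j) (-(Γ x i j)) x
  ndet : ∀ u ∈ UU, ∀ v ∈ UU, u < v → v ≠ u + π → (S u - S v).det ≠ 0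
  S2c : ContinuousOn S2 (Ioo 0 (2 * π))
  S2e : ∀ x ∈ UU, (S x).toBlocks₂₂ = S2 x
  Γ2c : ContinuousOn Γ2 (Ioo 0 (2 * π))
  Γ2e : ∀ x ∈ UU, (Γ x).toBlocks₂₂ = Γ2 x
  Γ2p : ∀ x ∈ Ioo 0 (2 * π), (Γ2 x).PosDef
  lim0 : ∀ K : ℝ, ∀ᶠ y in 𝓝[>] (0 : ℝ), ∀ v : m ⊕ n → ℝ, K * (v ⬝ᵥ v) ≤ qf (S y) v
  limpi : ∀ K : ℝ, ∀ᶠ z in 𝓝[>] π, ∀ v : m → ℝ, K * (v ⬝ᵥ v) ≤ qf (S z).toBlocks₁₁ v

namespace JD

variable {S Γ : ℝ → Matrix (m ⊕ n) (m ⊕ n) ℝ} {S2 Γ2 : ℝ → Matrix n n ℝ}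

lemma Scont (h : JD S Γ S2 Γ2) {x : ℝ} (hx : x ∈ UU) : ContinuousAt S x := by
  have : Tendsto S (𝓝 x) (𝓝 (S x)) := by
    refine tendsto_pi_nhds.mpr fun i => tendsto_pi_nhds.mpr fun j => ?_
    exact (h.deriv x hx i j).continuousAt
  exact this

lemma D22 (h : JD S Γ S2 Γ2) {u v : ℝ} (hu : u ∈ UU) (hv : v ∈ UU) :
    (S u - S v).toBlocks₂₂ = S2 u - S2 v := by
  rw [← h.S2e u hu, ← h.S2e v hv]
  rfl

lemma symm_sub (h : JD S Γ S2 Γ2) {u v : ℝ} (hu : u ∈ UU) (hv : v ∈ UU) :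
    (S u - S v).IsSymm := (h.symm u hu).sub (h.symm v hv)

lemma S2symm (h : JD S Γ S2 Γ2) {u v : ℝ} (hu : u ∈ UU) (hv : v ∈ UU) :
    (S2 u - S2 v).IsSymm := by
  rw [← h.D22 hu hv]
  exact (symm_blocks (h.symm_sub hu hv)).2.1

lemma int22 (h : JD S Γ S2 Γ2) {u v : ℝ} (hu : 0 < u) (hv : v < 2 * π) (huv : u < v)
    (ξ : n → ℝ) : qf (S2 u - S2 v) ξ = ∫ x in u..v, qf (Γ2 x) ξ := by
  have hsub : Icc u v ⊆ Ioo 0 (2 * π) := fun x hx => ⟨lt_of_lt_of_le hu hx.1, lt_of_le_of_lt hx.2 hv⟩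
  refine int_qf_exc huv.le (c := π) (h.S2c.mono hsub) ?_ (h.Γ2c.mono hsub) ξ
  intro x hx hne i j
  have hxU : x ∈ UU := ⟨(hsub (Ioo_subset_Icc_self hx)).1, (hsub (Ioo_subset_Icc_self hx)).2, hne⟩
  have h1 := h.deriv x hxU (Sum.inr i) (Sum.inr j)
  have h2 : Γ x (Sum.inr i) (Sum.inr j) = Γ2 x i j := by rw [← h.Γ2e x hxU]; rfl
  rw [h2] at h1
  refine h1.congr_of_eventuallyEq ?_
  have hev : ∀ᶠ y in 𝓝 x, y ∈ UU := by
    have ho : IsOpen UU := by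
      have : UU = Ioo 0 (2 * π) ∩ {π}ᶜ := by
        ext y; simp [UU, and_assoc]
      rw [this]
      exact isOpen_Ioo.inter isOpen_compl_singleton
    exact ho.mem_nhds hxU
  filter_upwards [hev] with y hy
  rw [← h.S2e y hy]; rfl

lemma pos22 (h : JD S Γ S2 Γ2) {u v : ℝ} (hu : u ∈ UU) (hv : v ∈ UU) (huv : u < v) :
    (S2 u - S2 v).PosDef := by
  have hsub : Icc u v ⊆ Ioo 0 (2 * π) :=
    fun x hx => ⟨lt_of_lt_of_le hu.1 hx.1, lt_of_le_of_lt hx.2 hv.2.1⟩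
  exact posDef_of_int huv (h.S2symm hu hv) (h.Γ2c.mono hsub) (fun x hx => h.Γ2p x (hsub hx))
    fun ξ => h.int22 hu.1 hv.2.1 huv ξ

lemma pos22' (h : JD S Γ S2 Γ2) {u v : ℝ} (hu : u ∈ UU) (hv : v ∈ UU) (huv : u < v) :
    (S u - S v).toBlocks₂₂.PosDef := by rw [h.D22 hu hv]; exact h.pos22 hu hv huv

/-- `[u,v]` does not contain `π` -/
lemma int_full (h : JD S Γ S2 Γ2) {u v : ℝ} (huv : u ≤ v) (hU : ∀ x ∈ Icc u v, x ∈ UU)
    (ξ : m ⊕ n → ℝ) : qf (S u - S v) ξ = ∫ x in u..v, qf (Γ x) ξ :=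
  int_qf huv (fun x hx => h.deriv x (hU x hx))
    (fun x hx => (h.cont x (hU x hx)).continuousWithinAt) ξ

lemma sub_UU {u v : ℝ} (hc : (0 < u ∧ v < π) ∨ (π < u ∧ v < 2 * π)) :
    ∀ x ∈ Icc u v, x ∈ UU := by
  have hpi := pi_pos
  rintro x ⟨h1, h2⟩
  rcases hc with ⟨h3, h4⟩ | ⟨h3, h4⟩
  · exact ⟨by linarith, by linarith, by linarith [lt_of_le_of_lt h2 h4] |> fun (h : x < π) => h.ne⟩
  · exact ⟨by linarith, by linarith, (lt_of_lt_of_le h3 h1).ne'⟩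

/-- superadditivity on an interval `[α,β]` in `U`: general form -/
lemma super (h : JD S Γ S2 Γ2) {α β : ℝ} (hab : α ≤ β) (hU : ∀ x ∈ Icc α β, x ∈ UU)
    {D1 D0 : Matrix (m ⊕ n) (m ⊕ n) ℝ} {X : Matrix m m ℝ} (h1 : D1.IsSymm)
    (hd1 : D1.toBlocks₂₂.det ≠ 0) (hX : ∀ v u, qf X v ≤ qf D0 (Sum.elim v u))
    (hD : D1 - D0 = S α - S β) (v : m → ℝ) :
    qf X v + ∫ x in α..β, qf (sch (Γ x)) v ≤ qf (sch D1) v := by
  refine sch_superadd hab h1 hd1 hX (fun x hx => (h.cont x (hU x hx)).continuousWithinAt)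
    (fun x hx => h.pos x (hU x hx)) (fun ξ => ?_) v
  rw [← h.int_full hab hU ξ, ← hD, qf_sub]; ring

/-- both points on the same side of `π` -/
theorem jp1 (h : JD S Γ S2 Γ2) {u v : ℝ} (huv : u < v)
    (hc : (0 < u ∧ v < π) ∨ (π < u ∧ v < 2 * π)) :
    (S u - S v).PosDef ∧
    ∀ y : m → ℝ, ∫ x in u..v, qf (sch (Γ x)) y ≤ qf (sch (S u - S v)) y := by
  have hU := sub_UU hc
  have huU := hU u ⟨le_rfl, huv.le⟩
  have hvU := hU v ⟨huv.le, le_rfl⟩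
  have hs := h.symm_sub huU hvU
  refine ⟨posDef_of_int huv hs (fun x hx => (h.cont x (hU x hx)).continuousWithinAt)
    (fun x hx => h.pos x (hU x hx)) fun ξ => h.int_full huv.le hU ξ, fun y => ?_⟩
  have := h.super huv.le hU (D0 := 0) (X := 0) hs (h.pos22' huU hvU huv).det_pos.ne'
    (fun v u => by simp) (by rw [sub_zero]) y
  simpa using this

/-- equality information for `jp1` -/
theorem jp1_eq (h : JD S Γ S2 Γ2) {u v : ℝ} (huv : u < v)
    (hc : (0 < u ∧ v < π) ∨ (π < u ∧ v < 2 * π)) (y : m → ℝ)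
    (heq : qf (sch (S u - S v)) y ≤ ∫ x in u..v, qf (sch (Γ x)) y) :
    ∀ x ∈ Icc u v, umin (Γ x) y = umin (S u - S v) y := by
  have hU := sub_UU hc
  have huU := hU u ⟨le_rfl, huv.le⟩
  have hvU := hU v ⟨huv.le, le_rfl⟩
  have hs := h.symm_sub huU hvU
  refine sch_superadd_eq (D0 := 0) (X := 0) huv hs (h.pos22' huU hvU huv).det_pos.ne'
    (fun v u => by simp) (fun x hx => (h.cont x (hU x hx)).continuousWithinAt)
    (fun x hx => h.pos x (hU x hx)) (fun ξ => ?_) y (by simpa using heq)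
  rw [← h.int_full huv.le hU ξ]; simp

lemma cont_sub_right (h : JD S Γ S2 Γ2) {u : ℝ} {s : Set ℝ} (hs : ∀ x ∈ s, x ∈ UU) :
    ContinuousOn (fun v => S u - S v) s :=
  continuousOn_const.sub fun x hx => (h.Scont (hs x hx)).continuousWithinAt

lemma cont_sub_left (h : JD S Γ S2 Γ2) {v : ℝ} {s : Set ℝ} (hs : ∀ x ∈ s, x ∈ UU) :
    ContinuousOn (fun u => S u - S v) s :=
  ContinuousOn.sub (fun x hx => (h.Scont (hs x hx)).continuousWithinAt) continuousOn_const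

/-- sign of the Schur complement, `u < π < v < u + π` -/
lemma neg_sch (h : JD S Γ S2 Γ2) {u v : ℝ} (hu : 0 < u) (hu' : u < π) (hv : π < v)
    (hv' : v < u + π) : (-(sch (S u - S v))).PosDef := by
  have hpi := pi_pos
  have huU : u ∈ UU := ⟨hu, by linarith, hu'.ne⟩
  have hI : ∀ x ∈ Ioo π (u + π), x ∈ UU := fun x hx => ⟨by linarith [hx.1], by linarith [hx.2], hx.1.ne'⟩
  have h22 : ∀ x ∈ Ioo π (u + π), (S u - S x).toBlocks₂₂.PosDef :=
    fun x hx => h.pos22' huU (hI x hx) (hu'.trans hx.1)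
  have hsymm : ∀ x ∈ Ioo π (u + π), (S u - S x).IsSymm := fun x hx => h.symm_sub huU (hI x hx)
  have hcont : ContinuousOn (fun x => -(sch (S u - S x))) (Ioo π (u + π)) :=
    (continuousOn_sch (h.cont_sub_right hI) fun x hx => (h22 x hx).det_pos.ne').neg
  have hdet : ∀ x ∈ Ioo π (u + π), (-(sch (S u - S x))).det ≠ 0 := by
    intro x hx
    have h1 := h.ndet u huU x (hI x hx) (hu'.trans hx.1) hx.2.ne
    rw [det_eq_sch (h22 x hx).det_pos.ne'] at h1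
    rw [det_neg]
    exact mul_ne_zero (pow_ne_zero _ (by norm_num)) (right_ne_zero_of_mul h1)
  obtain ⟨x0, hx0, hp0⟩ : ∃ x0 ∈ Ioo π (u + π), (-(sch (S u - S x0))).PosDef := by
    set c : ℝ := (∑ i, ∑ j, |(S u).toBlocks₁₁ i j|) + 1 with hc
    have h1 := h.limpi c
    have h2 : ∀ᶠ z in 𝓝[>] π, z ∈ Ioo π (u + π) := Ioo_mem_nhdsGT (by linarith)
    obtain ⟨x0, h3, h4⟩ := (h1.and h2).exists
    refine ⟨x0, h4, posDef_iff_qf.mpr ⟨?_, fun y hy => ?_⟩⟩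
    · exact (sch_symm (hsymm x0 h4)).neg
    · rw [qf_neg]
      have h5 := qf_sch_le (hsymm x0 h4) (h22 x0 h4) y 0
      rw [qf_elim (hsymm x0 h4)] at h5
      simp only [zero_dotProduct, mul_zero, add_zero, qf_zero] at h5
      have h6 : qf (S u - S x0).toBlocks₁₁ y = qf (S u).toBlocks₁₁ y - qf (S x0).toBlocks₁₁ y := by
        rw [← qf_sub]; rfl
      have h7 := (abs_le.mp (abs_qf_le (S u).toBlocks₁₁ y)).2
      have h8 := h3 y
      have h9 := dot_self_pos hy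
      rw [hc] at h8
      nlinarith
  exact posDef_of_connected hcont (fun x hx => (sch_symm (hsymm x hx)).neg) hdet hx0 hp0 v ⟨hv, hv'⟩

/-- `u < π`, `v > u + π`: the whole difference is positive definite -/
lemma pos_far (h : JD S Γ S2 Γ2) {u v : ℝ} (hu : 0 < u) (hv : u + π < v) (hv' : v < 2 * π) :
    (S u - S v).PosDef := by
  have hpi := pi_pos
  have hvU : v ∈ UU := ⟨by linarith, hv', by linarith |> fun (h : π < v) => h.ne'⟩
  have hI : ∀ x ∈ Ioo 0 (v - π), x ∈ UU := fun x hx =>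
    ⟨hx.1, by linarith [hx.2], (show x < π by linarith [hx.2]).ne⟩
  have hsymm : ∀ x ∈ Ioo 0 (v - π), (S x - S v).IsSymm := fun x hx => h.symm_sub (hI x hx) hvU
  have hdet : ∀ x ∈ Ioo 0 (v - π), (S x - S v).det ≠ 0 := fun x hx =>
    h.ndet x (hI x hx) v hvU (by linarith [hx.2]) (by have := hx.2; intro h0; linarith)
  obtain ⟨x0, hx0, hp0⟩ : ∃ x0 ∈ Ioo 0 (v - π), (S x0 - S v).PosDef := by
    set c : ℝ := (∑ i, ∑ j, |(S v) i j|) + 1 with hc
    have h1 := h.lim0 c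
    have h2 : ∀ᶠ z in 𝓝[>] (0 : ℝ), z ∈ Ioo 0 (v - π) := Ioo_mem_nhdsGT (by linarith)
    obtain ⟨x0, h3, h4⟩ := (h1.and h2).exists
    refine ⟨x0, h4, posDef_iff_qf.mpr ⟨hsymm x0 h4, fun y hy => ?_⟩⟩
    rw [qf_sub]
    have h7 := (abs_le.mp (abs_qf_le (S v) y)).2
    have h8 := h3 y
    have h9 := dot_self_pos hy
    rw [hc] at h8
    nlinarith
  exact posDef_of_connected (h.cont_sub_left hI) hsymm hdet hx0 hp0 u ⟨hu, by linarith⟩

/-- passing to the limit in the end point of an integral -/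
lemma le_of_forall_integral_le {g : ℝ → ℝ} {α β K : ℝ} (hab : α < β)
    (hg : ContinuousOn g (Icc α β)) (h : ∀ γ ∈ Ioo α β, ∫ x in α..γ, g x ≤ K) :
    ∫ x in α..β, g x ≤ K := by
  have hint : IntervalIntegrable g volume α β := hg.intervalIntegrable_of_Icc hab.le
  have hcont : ContinuousOn (fun γ => ∫ x in α..γ, g x) (Icc α β) := by
    have := intervalIntegral.continuousOn_primitive_interval (μ := volume) (f := g) (a := α) (b := β)
      (by rw [uIcc_of_le hab.le]; exact hg.integrableOn_Icc)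
    rwa [uIcc_of_le hab.le] at this
  have ht : Tendsto (fun γ => ∫ x in α..γ, g x) (𝓝[<] β) (𝓝 (∫ x in α..β, g x)) := by
    have := (hcont β ⟨hab.le, le_rfl⟩).tendsto
    refine this.mono_left ?_
    rw [← nhdsWithin_Ioo_eq_nhdsLT hab]
    exact nhdsWithin_mono _ Ioo_subset_Icc_self
  refine le_of_tendsto ht ?_
  filter_upwards [Ioo_mem_nhdsLT hab] with γ hγ using h γ hγ

theorem jp2 (h : JD S Γ S2 Γ2) {u v : ℝ} (hu : 0 < u) (hu' : u < π) (hv : π < v)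
    (hv' : v < u + π) : (-(sch (S u - S v))).PosDef ∧
    ∀ y : m → ℝ, ∫ x in v..(u + π), qf (sch (Γ x)) y ≤ qf (-(sch (S u - S v))) y := by
  have hpi := pi_pos
  refine ⟨h.neg_sch hu hu' hv hv', fun y => ?_⟩
  have huU : u ∈ UU := ⟨hu, by linarith, hu'.ne⟩
  have hI : ∀ x ∈ Icc v (u + π), x ∈ UU :=
    fun x hx => ⟨by linarith [hx.1], by linarith [hx.2], (lt_of_lt_of_le hv hx.1).ne'⟩
  have hvU := hI v ⟨le_rfl, hv'.le⟩
  have hc : ContinuousOn (fun x => qf (sch (Γ x)) y) (Icc v (u + π)) :=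
    continuousOn_qf (cont_sch (fun x hx => (h.cont x (hI x hx)).continuousWithinAt)
      fun x hx => h.pos x (hI x hx)) y
  refine le_of_forall_integral_le hv' hc fun w hw => ?_
  have hwU := hI w (Ioo_subset_Icc_self hw)
  have h1 := h.super (α := v) (β := w) hw.1.le (fun x hx => hI x ⟨hx.1, hx.2.trans hw.2.le⟩)
    (D1 := S u - S w) (D0 := S u - S v) (X := sch (S u - S v)) (h.symm_sub huU hwU)
    (h.pos22' huU hwU (by linarith [hw.1])).det_pos.ne'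
    (fun a b => qf_sch_le (h.symm_sub huU hvU) (h.pos22' huU hvU (by linarith)) a b)
    (by abel) y
  have h2 := (posSemidef_iff_qf.mp (h.neg_sch hu hu' (hv.trans hw.1) hw.2).posSemidef).2 y
  rw [qf_neg] at h2 ⊢
  linarith

theorem jp3 (h : JD S Γ S2 Γ2) {u v : ℝ} (hu : 0 < u) (hv : u + π < v) (hv' : v < 2 * π) :
    (S u - S v).PosDef ∧
    ∀ y : m → ℝ, ∫ x in u..(v - π), qf (sch (Γ x)) y ≤ qf (sch (S u - S v)) y := by
  have hpi := pi_pos
  refine ⟨h.pos_far hu hv hv', fun y => ?_⟩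
  have hvU : v ∈ UU := ⟨by linarith, hv', (show π < v by linarith).ne'⟩
  have hI : ∀ x ∈ Icc u (v - π), x ∈ UU :=
    fun x hx => ⟨by linarith [hx.1], by linarith [hx.2], (show x < π by linarith [hx.2]).ne⟩
  have huU := hI u ⟨le_rfl, by linarith⟩
  have hc : ContinuousOn (fun x => qf (sch (Γ x)) y) (Icc u (v - π)) :=
    continuousOn_qf (cont_sch (fun x hx => (h.cont x (hI x hx)).continuousWithinAt)
      fun x hx => h.pos x (hI x hx)) y
  refine le_of_forall_integral_le (by linarith) hc fun w hw => ?_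
  have hwU := hI w (Ioo_subset_Icc_self hw)
  have hfar := h.pos_far (u := w) (v := v) (by linarith [hw.1]) (by linarith [hw.2]) hv'
  have h1 := h.super (α := u) (β := w) hw.1.le (fun x hx => hI x ⟨hx.1, hx.2.trans hw.2.le⟩)
    (D1 := S u - S v) (D0 := S w - S v) (X := sch (S w - S v)) (h.symm_sub huU hvU)
    (h.pos22' huU hvU (by linarith)).det_pos.ne'
    (fun a b => qf_sch_le (h.symm_sub hwU hvU) (h.pos22' hwU hvU (by linarith [hw.2])) a b)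
    (by abel) y
  have h2 := (posSemidef_iff_qf.mp (posDef_sch hfar).posSemidef).2 y
  linarith

end JD

end Pool.Agent.BL.T1
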