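import Pool.Agent.Lib.MP_ccbbf6_gt.S.SD
import Pool.Agent.Lib.MP_ccbbf6_gt.T1.Pairs

/-!
# Link: `SData` gives `JD`; `QQ = (sch Δ)⁻¹`, `Cm M = sch (M⁻¹)`
-/

set_option linter.unusedSectionVars false

namespace Pool.Agent.BL.T1

open Matrix MeasureTheory Set Filter Topology Real

section algebra

variable {m n : Type*} [Fintype m] [Fintype n] [DecidableEq m] [DecidableEq n]

lemma mul_umin {D : Matrix (m ⊕ n) (m ⊕ n) ℝ} (hd : D.toBlocks₂₂.det ≠ 0) (y : m → ℝ) :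
    D *ᵥ (Sum.elim y (umin D y)) = Sum.elim (sch D *ᵥ y) 0 := by
  have hu : IsUnit D.toBlocks₂₂.det := isUnit_iff_ne_zero.mpr hd
  have key : ∀ w : n → ℝ, D *ᵥ (Sum.elim y w)
      = Sum.elim (D.toBlocks₁₁ *ᵥ y + D.toBlocks₁₂ *ᵥ w) (D.toBlocks₂₁ *ᵥ y + D.toBlocks₂₂ *ᵥ w) := by
    intro w
    conv_lhs => rw [← fromBlocks_toBlocks D]
    rw [fromBlocks_mulVec]
    simp only [Sum.elim_comp_inl, Sum.elim_comp_inr]
  rw [key]
  have h1 : D.toBlocks₂₁ *ᵥ y + D.toBlocks₂₂ *ᵥ umin D y = 0 := by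
    rw [umin, mulVec_neg, mulVec_mulVec, mul_nonsing_inv _ hu, one_mulVec, add_neg_cancel]
  have h2 : D.toBlocks₁₁ *ᵥ y + D.toBlocks₁₂ *ᵥ umin D y = sch D *ᵥ y := by
    rw [umin, mulVec_neg, sch, sub_mulVec, ← sub_eq_add_neg]
    simp only [mulVec_mulVec, Matrix.mul_assoc]
  rw [h1, h2]

/-- the upper left block of the inverse is the inverse of the Schur complement -/
lemma inv_toBlocks₁₁ {D : Matrix (m ⊕ n) (m ⊕ n) ℝ} (hd : D.det ≠ 0) (hd2 : D.toBlocks₂₂.det ≠ 0) :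
    (D⁻¹).toBlocks₁₁ = (sch D)⁻¹ := by
  have hsd : (sch D).det ≠ 0 := by
    rw [det_eq_sch hd2] at hd
    exact right_ne_zero_of_mul hd
  symm
  refine inv_eq_right_inv ?_
  -- `sch D * (D⁻¹)₁₁ = 1`
  have hu : IsUnit D.toBlocks₂₂.det := isUnit_iff_ne_zero.mpr hd2
  have h1 : D * D⁻¹ = 1 := mul_nonsing_inv _ (isUnit_iff_ne_zero.mpr hd)
  have h2 : fromBlocks D.toBlocks₁₁ D.toBlocks₁₂ D.toBlocks₂₁ D.toBlocks₂₂ *
      fromBlocks (D⁻¹).toBlocks₁₁ (D⁻¹).toBlocks₁₂ (D⁻¹).toBlocks₂₁ (D⁻¹).toBlocks₂₂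
      = fromBlocks 1 0 0 1 := by
    rw [fromBlocks_toBlocks, fromBlocks_toBlocks, h1, fromBlocks_one]
  rw [fromBlocks_multiply, fromBlocks_inj] at h2
  obtain ⟨h11, -, h21, -⟩ := h2
  have h3 : (D⁻¹).toBlocks₂₁ = -((D.toBlocks₂₂)⁻¹ * (D.toBlocks₂₁ * (D⁻¹).toBlocks₁₁)) := by
    have h4 : D.toBlocks₂₂ * (D⁻¹).toBlocks₂₁ = -(D.toBlocks₂₁ * (D⁻¹).toBlocks₁₁) :=
      eq_neg_of_add_eq_zero_right h21
    calc (D⁻¹).toBlocks₂₁ = (D.toBlocks₂₂)⁻¹ * (D.toBlocks₂₂ * (D⁻¹).toBlocks₂₁) := by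
          rw [← Matrix.mul_assoc, nonsing_inv_mul _ hu, Matrix.one_mul]
      _ = _ := by rw [h4, Matrix.mul_neg]
  rw [sch, Matrix.sub_mul]
  rw [h3, Matrix.mul_neg] at h11
  rw [← h11, sub_eq_add_neg]
  simp only [Matrix.mul_assoc]

lemma sch_inv {M : Matrix (m ⊕ n) (m ⊕ n) ℝ} (hM : M.PosDef) : sch (M⁻¹) = (M.toBlocks₁₁)⁻¹ := by
  have hp := hM.inv
  have h1 := inv_toBlocks₁₁ hp.det_pos.ne' (posDef_toBlocks₂₂ hp).det_pos.ne'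
  rw [nonsing_inv_nonsing_inv _ (isUnit_iff_ne_zero.mpr hM.det_pos.ne')] at h1
  rw [h1, nonsing_inv_nonsing_inv]
  exact isUnit_iff_ne_zero.mpr (posDef_sch hp).det_pos.ne'

/-- the upper left block of a positive definite matrix dominates the Schur complement -/
lemma qf_sch_le_11 {D : Matrix (m ⊕ n) (m ⊕ n) ℝ} (h : D.IsSymm) (hp : D.toBlocks₂₂.PosDef)
    (v : m → ℝ) : qf (sch D) v ≤ qf D.toBlocks₁₁ v := by
  have h5 := qf_sch_le h hp v 0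
  rw [qf_elim h] at h5
  simpa using h5

end algebra

section link

variable {a b : Type} [Fintype a] [DecidableEq a] [Fintype b] [DecidableEq b]
variable {M S : ℝ → Matrix (a ⊕ b) (a ⊕ b) ℝ} {Γ2 S2 : ℝ → Matrix b b ℝ}

lemma UU_iff {x : ℝ} : x ∈ UU ↔ x ∈ Ioo 0 (2 * π) ∧ x ≠ π := by
  simp [UU, and_assoc]

/-- if `K → 1` then eventually `qf K v ≥ |v|²/2` -/
lemma half_le {ι : Type*} [Fintype ι] [DecidableEq ι] {K : ℝ → Matrix ι ι ℝ} {l : Filter ℝ}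
    (h : Tendsto K l (𝓝 1)) : ∀ᶠ x in l, ∀ v, (1 / 2) * (v ⬝ᵥ v) ≤ qf (K x) v := by
  have hcont : Tendsto (fun y => ∑ i, ∑ j, |K y i j - (1 : Matrix ι ι ℝ) i j|) l (𝓝 0) := by
    have h1 : Continuous (fun M : Matrix ι ι ℝ => ∑ i, ∑ j, |M i j - (1 : Matrix ι ι ℝ) i j|) := by
      fun_prop
    have h2 : Tendsto (fun y => ∑ i, ∑ j, |K y i j - (1 : Matrix ι ι ℝ) i j|) l
        (𝓝 (∑ i, ∑ j, |(1 : Matrix ι ι ℝ) i j - (1 : Matrix ι ι ℝ) i j|)) := (h1.tendsto 1).comp h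
    simpa using h2
  filter_upwards [hcont.eventually (gt_mem_nhds (show (0 : ℝ) < 1 / 2 by norm_num))] with y hy v
  have h1 : |qf (K y - 1) v| ≤ (∑ i, ∑ j, |K y i j - (1 : Matrix ι ι ℝ) i j|) * (v ⬝ᵥ v) :=
    abs_qf_le (K y - 1) v
  rw [qf_sub] at h1
  have h3 : qf (1 : Matrix ι ι ℝ) v = v ⬝ᵥ v := by simp [qf]
  have h4 := (abs_le.mp h1).1
  have h5 := mul_le_mul_of_nonneg_right hy.le (dot_self_nonneg v)
  linarith

lemma lim0_of (h : BL.SData M S Γ2 S2) (K : ℝ) :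
    ∀ᶠ y in 𝓝[>] (0 : ℝ), ∀ v : a ⊕ b → ℝ, K * (v ⬝ᵥ v) ≤ qf (S y) v := by
  have h1 := half_le h.S0
  have h2 : ∀ᶠ y in 𝓝[>] (0 : ℝ), y ∈ Ioo 0 (1 / (2 * (|K| + 1))) :=
    Ioo_mem_nhdsGT (by positivity)
  filter_upwards [h1, h2] with y hy hy2 v
  have h3 := hy v
  rw [qf_smul] at h3
  have h4 : y * (2 * (|K| + 1)) < 1 := by
    have := hy2.2
    rwa [lt_div_iff₀ (by positivity)] at this
  have h5 := dot_self_nonneg v
  have h6 : K ≤ |K| := le_abs_self K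
  have hy0 : 0 < y := hy2.1
  -- y * K * |v|² ≤ (1/2) |v|² ≤ y * qf
  have h7 : y * (K * (v ⬝ᵥ v)) ≤ y * qf (S y) v := by
    refine le_trans ?_ h3
    have : y * K ≤ 1 / 2 := by nlinarith
    calc y * (K * (v ⬝ᵥ v)) = (y * K) * (v ⬝ᵥ v) := by ring
      _ ≤ (1 / 2) * (v ⬝ᵥ v) := mul_le_mul_of_nonneg_right this h5
  exact le_of_mul_le_mul_left h7 hy0

/-- near `π`: `qf (M x)₁₁⁻¹ v ≥ c |v|² / (x-π)²` -/
lemma Cm_lower (h : BL.SData M S Γ2 S2) :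
    ∃ c > 0, ∀ᶠ x in 𝓝[≠] π, ∀ v : a → ℝ,
      c * ((x - π) ^ 2)⁻¹ * (v ⬝ᵥ v) ≤ qf ((M x).toBlocks₁₁)⁻¹ v := by
  obtain ⟨G, hG, hlim⟩ := h.Gpi
  obtain ⟨c, hc, hcl⟩ := exists_lower hG.inv
  refine ⟨c / 2, by positivity, ?_⟩
  -- the inverse of `(x-π)⁻² M₁₁` tends to `G⁻¹`
  have hinv : Tendsto (fun x : ℝ => (((x - π) ^ 2)⁻¹ • (M x).toBlocks₁₁)⁻¹) (𝓝[≠] π) (𝓝 G⁻¹) := by
    have h1 : ContinuousAt (fun K : Matrix a a ℝ => K⁻¹) G := by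
      have := continuousWithinAt_inv (K := fun K : Matrix a a ℝ => K) (s := univ) (x := G)
        continuousWithinAt_id hG.det_pos.ne'
      exact (continuousWithinAt_univ _ _).mp this
    exact h1.tendsto.comp hlim
  have hsum : Tendsto (fun x => ∑ i, ∑ j, |((((x - π) ^ 2)⁻¹ • (M x).toBlocks₁₁)⁻¹) i j - G⁻¹ i j|)
      (𝓝[≠] π) (𝓝 0) := by
    have h1 : Continuous (fun M : Matrix a a ℝ => ∑ i, ∑ j, |M i j - G⁻¹ i j|) := by
      fun_prop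
    have h2 : Tendsto (fun x => ∑ i, ∑ j,
        |((((x - π) ^ 2)⁻¹ • (M x).toBlocks₁₁)⁻¹) i j - G⁻¹ i j|)
        (𝓝[≠] π) (𝓝 (∑ i, ∑ j, |G⁻¹ i j - G⁻¹ i j|)) := (h1.tendsto G⁻¹).comp hinv
    simpa using h2
  have hU : ∀ᶠ x in 𝓝[≠] π, x ∈ Ioo 0 (2 * π) ∧ x ≠ π := by
    have h1 : ∀ᶠ x in 𝓝[≠] π, x ∈ Ioo 0 (2 * π) :=
      nhdsWithin_le_nhds (Ioo_mem_nhds pi_pos (by linarith [pi_pos]))
    exact h1.and self_mem_nhdsWithin
  filter_upwards [hsum.eventually (gt_mem_nhds (show (0 : ℝ) < c / 2 by positivity)), hU]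
    with x hx hxU v
  have hne : (x - π) ^ 2 ≠ 0 := pow_ne_zero _ (sub_ne_zero.mpr hxU.2)
  have h11 := posDef_toBlocks₁₁ (h.Mpos x hxU.1 hxU.2)
  have hi : (((x - π) ^ 2)⁻¹ • (M x).toBlocks₁₁)⁻¹ = (x - π) ^ 2 • ((M x).toBlocks₁₁)⁻¹ := by
    refine inv_eq_right_inv ?_
    rw [smul_mul_smul_comm, inv_mul_cancel₀ hne, one_smul,
      mul_nonsing_inv _ (isUnit_iff_ne_zero.mpr h11.det_pos.ne')]
  have h1 := abs_qf_le ((((x - π) ^ 2)⁻¹ • (M x).toBlocks₁₁)⁻¹ - G⁻¹) v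
  rw [qf_sub] at h1
  have h2 : (∑ i, ∑ j, |((((x - π) ^ 2)⁻¹ • (M x).toBlocks₁₁)⁻¹ - G⁻¹) i j|) * (v ⬝ᵥ v)
      ≤ (c / 2) * (v ⬝ᵥ v) := mul_le_mul_of_nonneg_right hx.le (dot_self_nonneg v)
  have h3 := (abs_le.mp h1).1
  have h4 := hcl v
  rw [hi, qf_smul] at h3
  have h5 : c / 2 * (v ⬝ᵥ v) ≤ (x - π) ^ 2 * qf ((M x).toBlocks₁₁)⁻¹ v := by
    rw [hi] at h2
    linarith
  have h6 : 0 < (x - π) ^ 2 := lt_of_le_of_ne (sq_nonneg _) hne.symm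
  calc c / 2 * ((x - π) ^ 2)⁻¹ * (v ⬝ᵥ v) = ((x - π) ^ 2)⁻¹ * (c / 2 * (v ⬝ᵥ v)) := by ring
    _ ≤ ((x - π) ^ 2)⁻¹ * ((x - π) ^ 2 * qf ((M x).toBlocks₁₁)⁻¹ v) :=
        mul_le_mul_of_nonneg_left h5 (inv_nonneg.mpr h6.le)
    _ = _ := by rw [← mul_assoc, inv_mul_cancel₀ hne, one_mul]

lemma limpi_of (h : BL.SData M S Γ2 S2) (K : ℝ) :
    ∀ᶠ z in 𝓝[>] π, ∀ v : a → ℝ, K * (v ⬝ᵥ v) ≤ qf (S z).toBlocks₁₁ v := by
  obtain ⟨c, hc, hev⟩ := Cm_lower h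
  -- a right neighbourhood on which the lower bound holds
  obtain ⟨δ, hδ, hδ2⟩ : ∃ δ > 0, ∀ x ∈ Ioo π (π + δ), x < 2 * π ∧ ∀ v : a → ℝ,
      c * ((x - π) ^ 2)⁻¹ * (v ⬝ᵥ v) ≤ qf ((M x).toBlocks₁₁)⁻¹ v := by
    have h1 : ∀ᶠ x in 𝓝[>] π, x < 2 * π ∧ ∀ v : a → ℝ,
        c * ((x - π) ^ 2)⁻¹ * (v ⬝ᵥ v) ≤ qf ((M x).toBlocks₁₁)⁻¹ v := by
      refine Filter.Eventually.and ?_ ?_
      · exact nhdsWithin_le_nhds (gt_mem_nhds (by linarith [pi_pos]) |> fun h => h)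
      · exact hev.filter_mono (nhdsWithin_mono _ fun x hx => (ne_of_gt hx))
    obtain ⟨u, hu, hu2⟩ := mem_nhdsGT_iff_exists_Ioo_subset.mp h1
    exact ⟨u - π, sub_pos.mpr hu, fun x hx => hu2 ⟨hx.1, by linarith [hx.2]⟩⟩
  set z1 := π + δ / 2 with hz1
  have hz1I : z1 ∈ Ioo π (π + δ) := ⟨by linarith, by linarith⟩
  set B : ℝ := ∑ i, ∑ j, |(S z1).toBlocks₁₁ i j| with hB
  -- for `π < z < z1`: `S₁₁(z) ≥ S₁₁(z1) + c (1/(z-π) - 1/(z1-π))`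
  have key : ∀ z ∈ Ioo π z1, ∀ v : a → ℝ,
      (c * ((z - π)⁻¹ - (z1 - π)⁻¹) - B) * (v ⬝ᵥ v) ≤ qf (S z).toBlocks₁₁ v := by
    intro z hz v
    have hI : ∀ x ∈ Icc z z1, x ∈ Ioo π (π + δ) := fun x hx =>
      ⟨lt_of_lt_of_le hz.1 hx.1, lt_of_le_of_lt hx.2 hz1I.2⟩
    have hIU : ∀ x ∈ Icc z z1, x ∈ Ioo 0 (2 * π) ∧ x ≠ π := fun x hx =>
      ⟨⟨pi_pos.trans (hI x hx).1, (hδ2 x (hI x hx)).1⟩, (hI x hx).1.ne'⟩
    have hcontM : ContinuousOn (fun x => (M x)⁻¹) (Icc z z1) := fun x hx =>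
      continuousWithinAt_inv (h.Mcont x (hIU x hx).1 (hIU x hx).2).continuousWithinAt
        (h.Mpos x (hIU x hx).1 (hIU x hx).2).det_pos.ne'
    have h1 := int_qf (S := S) (Γ := fun x => (M x)⁻¹) (α := z) (β := z1) hz.2.le
      (fun x hx i j => h.dS x (hIU x hx).1 (hIU x hx).2 i j) hcontM (Sum.elim v 0)
    have hq : ∀ D : Matrix (a ⊕ b) (a ⊕ b) ℝ, qf D (Sum.elim v (0 : b → ℝ)) = qf D.toBlocks₁₁ v := by
      intro D
      conv_lhs => rw [← fromBlocks_toBlocks D]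
      simp only [qf, fromBlocks_mulVec, sumElim_dotProduct_sumElim, Sum.elim_comp_inl,
        Sum.elim_comp_inr, mulVec_zero, add_zero, zero_dotProduct]
    have h2 : qf (S z).toBlocks₁₁ v = qf (S z1).toBlocks₁₁ v
        + ∫ x in z..z1, qf ((M x)⁻¹) (Sum.elim v (0 : b → ℝ)) := by
      rw [← h1, qf_sub, hq, hq]; ring
    have h3 : (∫ x in z..z1, c * ((x - π) ^ 2)⁻¹ * (v ⬝ᵥ v))
        ≤ ∫ x in z..z1, qf ((M x)⁻¹) (Sum.elim v (0 : b → ℝ)) := by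
      refine intervalIntegral.integral_mono_on hz.2.le ?_ (ii_qf hz.2.le hcontM _) fun x hx => ?_
      · refine ContinuousOn.intervalIntegrable_of_Icc hz.2.le ?_
        refine ContinuousOn.mul (continuousOn_const.mul ?_) continuousOn_const
        refine ContinuousOn.inv₀ (by fun_prop) fun x hx => ?_
        exact pow_ne_zero _ (sub_ne_zero.mpr (hI x hx).1.ne')
      · rw [hq]
        have hp := h.Mpos x (hIU x hx).1 (hIU x hx).2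
        have h4 := qf_sch_le_11 (posDef_symm hp.inv) (posDef_toBlocks₂₂ hp.inv) v
        rw [sch_inv hp] at h4
        exact ((hδ2 x (hI x hx)).2 v).trans h4
    have h4 : (∫ x in z..z1, c * ((x - π) ^ 2)⁻¹ * (v ⬝ᵥ v))
        = c * ((z - π)⁻¹ - (z1 - π)⁻¹) * (v ⬝ᵥ v) := by
      have hd : ∀ x ∈ uIcc z z1, HasDerivAt (fun x => -(c * (v ⬝ᵥ v)) * (x - π)⁻¹)
          (c * ((x - π) ^ 2)⁻¹ * (v ⬝ᵥ v)) x := by
        intro x hx
        rw [uIcc_of_le hz.2.le] at hx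
        have hne : x - π ≠ 0 := sub_ne_zero.mpr (hI x hx).1.ne'
        have h5 : HasDerivAt (fun x => (x - π)⁻¹) (-1 / (x - π) ^ 2) x :=
          ((hasDerivAt_id x).sub_const π).inv hne
        have h6 := h5.const_mul (-(c * (v ⬝ᵥ v)))
        have h7 : -(c * (v ⬝ᵥ v)) * (-1 / (x - π) ^ 2) = c * ((x - π) ^ 2)⁻¹ * (v ⬝ᵥ v) := by
          field_simp
        rw [h7] at h6
        exact h6
      rw [intervalIntegral.integral_eq_sub_of_hasDerivAt hd]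
      · ring
      · refine ContinuousOn.intervalIntegrable_of_Icc hz.2.le ?_
        refine ContinuousOn.mul (continuousOn_const.mul ?_) continuousOn_const
        refine ContinuousOn.inv₀ (by fun_prop) fun x hx => ?_
        exact pow_ne_zero _ (sub_ne_zero.mpr (hI x hx).1.ne')
    have h5 := (abs_le.mp (abs_qf_le (S z1).toBlocks₁₁ v)).1
    rw [← hB] at h5
    rw [h2]
    linarith
  -- conclusion
  set R : ℝ := (|K| + B) / c + (z1 - π)⁻¹ + 1 with hR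
  have hB0 : 0 ≤ B := Finset.sum_nonneg fun i _ => Finset.sum_nonneg fun j _ => abs_nonneg _
  have hz1p : 0 < z1 - π := by linarith [hz1I.1]
  have hRpos : 0 < R := by positivity
  have hev2 : ∀ᶠ z in 𝓝[>] π, z ∈ Ioo π (min z1 (π + R⁻¹)) :=
    Ioo_mem_nhdsGT (lt_min hz1I.1 (by linarith [inv_pos.mpr hRpos]))
  filter_upwards [hev2] with z hz v
  have hzz1 : z ∈ Ioo π z1 := ⟨hz.1, lt_of_lt_of_le hz.2 (min_le_left _ _)⟩
  have h1 := key z hzz1 v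
  have hzp : 0 < z - π := by linarith [hz.1]
  have h2 : R ≤ (z - π)⁻¹ := by
    have h3 : z - π ≤ R⁻¹ := by
      have := lt_of_lt_of_le hz.2 (min_le_right _ _)
      linarith
    have := inv_anti₀ hzp h3
    rwa [inv_inv] at this
  have h3 : K ≤ c * ((z - π)⁻¹ - (z1 - π)⁻¹) - B := by
    have h4 : (|K| + B) / c ≤ (z - π)⁻¹ - (z1 - π)⁻¹ := by
      rw [hR] at h2; linarith
    have h5 : |K| + B ≤ c * ((z - π)⁻¹ - (z1 - π)⁻¹) := by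
      rw [div_le_iff₀ hc] at h4
      linarith
    have := le_abs_self K
    linarith
  exact (mul_le_mul_of_nonneg_right h3 (dot_self_nonneg v)).trans h1

theorem jd_of (h : BL.SData M S Γ2 S2) : JD S (fun x => (M x)⁻¹) S2 Γ2 where
  symm := fun x hx => h.Ssymm x (UU_iff.mp hx).1 (UU_iff.mp hx).2
  pos := fun x hx => (h.Mpos x (UU_iff.mp hx).1 (UU_iff.mp hx).2).inv
  cont := fun x hx => by
    have := continuousWithinAt_inv (K := M) (s := univ) (x := x)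
      (h.Mcont x (UU_iff.mp hx).1 (UU_iff.mp hx).2).continuousWithinAt
      (h.Mpos x (UU_iff.mp hx).1 (UU_iff.mp hx).2).det_pos.ne'
    exact (continuousWithinAt_univ _ _).mp this
  deriv := fun x hx i j => h.dS x (UU_iff.mp hx).1 (UU_iff.mp hx).2 i j
  ndet := fun u hu v hv huv hne =>
    h.conj u v hu.1 huv hv.2.1 hu.2.2 hv.2.2 hne
  S2c := fun x hx => (h.S2cont x hx).continuousWithinAt
  S2e := fun x hx => (h.S2eq x (UU_iff.mp hx).1 (UU_iff.mp hx).2).symm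
  Γ2c := fun x hx => (h.G2cont x hx).continuousWithinAt
  Γ2e := fun x hx => (h.G2eq x (UU_iff.mp hx).1 (UU_iff.mp hx).2).symm
  Γ2p := h.G2pos
  lim0 := lim0_of h
  limpi := limpi_of h

end link

end Pool.Agent.BL.T1
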