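import Pool.Agent.Lib.MP_ccbbf6_gt.ML

/-!
# Schur complements of symmetric real block matrices (Theorem 1 of team BL, MP_ccbbf6_gt)

`sch D = D₁₁ - D₁₂ D₂₂⁻¹ D₂₁`.  For `D` symmetric with `D₂₂` positive definite,
`v · sch D v = min_u (v,u) · D (v,u)`; hence `sch` is superadditive.
-/

set_option linter.unusedSectionVars false

namespace Pool.Agent.BL.T1

open Matrix MeasureTheory

variable {m n : Type*} [Fintype m] [Fintype n] [DecidableEq m] [DecidableEq n]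

/-- the quadratic form of a real matrix -/
def qf {ι : Type*} [Fintype ι] (M : Matrix ι ι ℝ) (v : ι → ℝ) : ℝ := v ⬝ᵥ (M *ᵥ v)

/-- the Schur complement of the lower right block -/
noncomputable def sch (D : Matrix (m ⊕ n) (m ⊕ n) ℝ) : Matrix m m ℝ :=
  D.toBlocks₁₁ - D.toBlocks₁₂ * (D.toBlocks₂₂)⁻¹ * D.toBlocks₂₁

section basic

variable {ι : Type*} [Fintype ι]

lemma qf_add (M N : Matrix ι ι ℝ) (v : ι → ℝ) : qf (M + N) v = qf M v + qf N v := by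
  simp [qf, add_mulVec]

lemma qf_sub (M N : Matrix ι ι ℝ) (v : ι → ℝ) : qf (M - N) v = qf M v - qf N v := by
  simp [qf, sub_mulVec]

lemma qf_neg (M : Matrix ι ι ℝ) (v : ι → ℝ) : qf (-M) v = - qf M v := by
  simp [qf, neg_mulVec]

lemma qf_smul (c : ℝ) (M : Matrix ι ι ℝ) (v : ι → ℝ) : qf (c • M) v = c * qf M v := by
  simp [qf, smul_mulVec]

@[simp] lemma qf_zero_left (v : ι → ℝ) : qf (0 : Matrix ι ι ℝ) v = 0 := by simp [qf]

@[simp] lemma qf_zero (M : Matrix ι ι ℝ) : qf M 0 = 0 := by simp [qf]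

lemma qf_eq_sum (M : Matrix ι ι ℝ) (v : ι → ℝ) :
    qf M v = ∑ i, ∑ j, v i * M i j * v j := by
  simp only [qf, dotProduct, mulVec, Finset.mul_sum, mul_assoc]

lemma qf_smul_vec (M : Matrix ι ι ℝ) (c : ℝ) (v : ι → ℝ) : qf M (c • v) = c ^ 2 * qf M v := by
  simp [qf, mulVec_smul]; ring

/-- polarisation: a symmetric matrix is determined by its quadratic form -/
lemma symm_bilin {M : Matrix ι ι ℝ} (h : M.IsSymm) (u v : ι → ℝ) :
    u ⬝ᵥ (M *ᵥ v) = v ⬝ᵥ (M *ᵥ u) := by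
  rw [dotProduct_mulVec, ← mulVec_transpose, h.eq, dotProduct_comm]

lemma qf_add_vec {M : Matrix ι ι ℝ} (h : M.IsSymm) (u v : ι → ℝ) :
    qf M (u + v) = qf M u + 2 * (u ⬝ᵥ (M *ᵥ v)) + qf M v := by
  simp only [qf, mulVec_add, dotProduct_add, add_dotProduct]
  rw [symm_bilin h v u]; ring

lemma eq_of_qf [DecidableEq ι] {M N : Matrix ι ι ℝ} (hM : M.IsSymm) (hN : N.IsSymm)
    (h : ∀ v, qf M v = qf N v) : M = N := by
  have key : ∀ u v : ι → ℝ, u ⬝ᵥ (M *ᵥ v) = u ⬝ᵥ (N *ᵥ v) := by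
    intro u v
    have h1 := h (u + v)
    rw [qf_add_vec hM, qf_add_vec hN, h u, h v] at h1
    linarith
  ext i j
  have := key (Pi.single i 1) (Pi.single j 1)
  simpa using this

lemma posDef_iff_qf {M : Matrix ι ι ℝ} :
    M.PosDef ↔ M.IsSymm ∧ ∀ v, v ≠ 0 → 0 < qf M v := by
  rw [posDef_iff_dotProduct_mulVec, isHermitian_iff_isSymm]
  constructor
  · rintro ⟨h1, h2⟩
    exact ⟨h1, fun v hv => by simpa [qf] using h2 hv⟩
  · rintro ⟨h1, h2⟩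
    exact ⟨h1, fun v hv => by simpa [qf] using h2 v hv⟩

lemma posSemidef_iff_qf {M : Matrix ι ι ℝ} :
    M.PosSemidef ↔ M.IsSymm ∧ ∀ v, 0 ≤ qf M v := by
  rw [posSemidef_iff_dotProduct_mulVec, isHermitian_iff_isSymm]
  constructor
  · rintro ⟨h1, h2⟩
    exact ⟨h1, fun v => by simpa [qf] using h2 v⟩
  · rintro ⟨h1, h2⟩
    exact ⟨h1, fun v => by simpa [qf] using h2 v⟩

end basic

section blocks

variable {D : Matrix (m ⊕ n) (m ⊕ n) ℝ}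

lemma symm_blocks (h : D.IsSymm) :
    D.toBlocks₁₁.IsSymm ∧ D.toBlocks₂₂.IsSymm ∧ (D.toBlocks₁₂)ᵀ = D.toBlocks₂₁ := by
  refine ⟨?_, ?_, ?_⟩
  · ext i j; exact congrFun (congrFun h (Sum.inl i)) (Sum.inl j)
  · ext i j; exact congrFun (congrFun h (Sum.inr i)) (Sum.inr j)
  · ext i j; exact congrFun (congrFun h (Sum.inr i)) (Sum.inl j)

lemma sch_symm (h : D.IsSymm) : (sch D).IsSymm := by
  obtain ⟨h1, h2, h3⟩ := symm_blocks h
  have h4 : (D.toBlocks₂₁)ᵀ = D.toBlocks₁₂ := by rw [← h3, transpose_transpose]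
  unfold sch Matrix.IsSymm
  rw [transpose_sub, transpose_mul, transpose_mul, transpose_nonsing_inv, h1.eq, h2.eq, h3, h4,
    Matrix.mul_assoc]

lemma qf_elim (h : D.IsSymm) (v : m → ℝ) (u : n → ℝ) :
    qf D (Sum.elim v u) = qf D.toBlocks₁₁ v + 2 * (u ⬝ᵥ (D.toBlocks₂₁ *ᵥ v))
      + qf D.toBlocks₂₂ u := by
  obtain ⟨h1, h2, h3⟩ := symm_blocks h
  have hD : D = fromBlocks D.toBlocks₁₁ D.toBlocks₁₂ D.toBlocks₂₁ D.toBlocks₂₂ :=
    (fromBlocks_toBlocks D).symm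
  have h5 : v ⬝ᵥ (D.toBlocks₁₂ *ᵥ u) = u ⬝ᵥ (D.toBlocks₂₁ *ᵥ v) := by
    rw [← h3, dotProduct_mulVec, ← mulVec_transpose, dotProduct_comm]
  conv_lhs => rw [hD]
  simp only [qf, fromBlocks_mulVec, sumElim_dotProduct_sumElim, Sum.elim_comp_inl,
    Sum.elim_comp_inr, dotProduct_add, h5]
  ring

/-- completing the square -/
lemma qf_eq_sch (h : D.IsSymm) (hd : D.toBlocks₂₂.det ≠ 0) (v : m → ℝ) (u : n → ℝ) :
    qf D (Sum.elim v u) = qf (sch D) v +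
      qf D.toBlocks₂₂ (u + (D.toBlocks₂₂)⁻¹ *ᵥ (D.toBlocks₂₁ *ᵥ v)) := by
  obtain ⟨h1, h2, h3⟩ := symm_blocks h
  have hu : IsUnit D.toBlocks₂₂.det := isUnit_iff_ne_zero.mpr hd
  set w := (D.toBlocks₂₂)⁻¹ *ᵥ (D.toBlocks₂₁ *ᵥ v) with hw
  have hw2 : D.toBlocks₂₂ *ᵥ w = D.toBlocks₂₁ *ᵥ v := by
    rw [hw, mulVec_mulVec, mul_nonsing_inv _ hu, one_mulVec]
  rw [qf_elim h, qf_add_vec h2, hw2]
  have h6 : qf (sch D) v = qf D.toBlocks₁₁ v - v ⬝ᵥ (D.toBlocks₁₂ *ᵥ w) := by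
    rw [sch, qf_sub]
    congr 1
    simp only [qf, hw, ← mulVec_mulVec]
  have h7 : v ⬝ᵥ (D.toBlocks₁₂ *ᵥ w) = qf D.toBlocks₂₂ w := by
    rw [qf, hw2, ← h3, dotProduct_mulVec, ← mulVec_transpose, dotProduct_comm]
  rw [h6, h7]; ring

lemma qf_sch_le (h : D.IsSymm) (hp : D.toBlocks₂₂.PosDef) (v : m → ℝ) (u : n → ℝ) :
    qf (sch D) v ≤ qf D (Sum.elim v u) := by
  rw [qf_eq_sch h hp.det_pos.ne' v u]
  have := (posSemidef_iff_qf.mp hp.posSemidef).2 (u + (D.toBlocks₂₂)⁻¹ *ᵥ (D.toBlocks₂₁ *ᵥ v))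
  linarith

/-- the minimiser -/
noncomputable def umin (D : Matrix (m ⊕ n) (m ⊕ n) ℝ) (v : m → ℝ) : n → ℝ :=
  -((D.toBlocks₂₂)⁻¹ *ᵥ (D.toBlocks₂₁ *ᵥ v))

lemma qf_umin (h : D.IsSymm) (hd : D.toBlocks₂₂.det ≠ 0) (v : m → ℝ) :
    qf D (Sum.elim v (umin D v)) = qf (sch D) v := by
  rw [qf_eq_sch h hd v (umin D v)]
  simp [umin]

lemma eq_umin (h : D.IsSymm) (hp : D.toBlocks₂₂.PosDef) {v : m → ℝ} {u : n → ℝ}
    (he : qf D (Sum.elim v u) = qf (sch D) v) : u = umin D v := by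
  rw [qf_eq_sch h hp.det_pos.ne' v u] at he
  by_contra hne
  have h0 : u + (D.toBlocks₂₂)⁻¹ *ᵥ (D.toBlocks₂₁ *ᵥ v) ≠ 0 := by
    intro h0
    exact hne (eq_neg_of_add_eq_zero_left h0)
  have := (posDef_iff_qf.mp hp).2 _ h0
  linarith

lemma det_eq_sch (hd : D.toBlocks₂₂.det ≠ 0) : D.det = D.toBlocks₂₂.det * (sch D).det := by
  have hu : IsUnit D.toBlocks₂₂.det := isUnit_iff_ne_zero.mpr hd
  let _ : Invertible D.toBlocks₂₂ := D.toBlocks₂₂.invertibleOfIsUnitDet hu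
  conv_lhs => rw [← fromBlocks_toBlocks D]
  rw [det_fromBlocks₂₂, sch, invOf_eq_nonsing_inv]

lemma posDef_toBlocks₂₂ (hp : D.PosDef) : D.toBlocks₂₂.PosDef := by
  have := hp.submatrix (e := (Sum.inr : n → m ⊕ n)) Sum.inr_injective
  exact this

lemma posDef_toBlocks₁₁ (hp : D.PosDef) : D.toBlocks₁₁.PosDef := by
  have := hp.submatrix (e := (Sum.inl : m → m ⊕ n)) Sum.inl_injective
  exact this

lemma posDef_symm {ι : Type*} [Fintype ι] {M : Matrix ι ι ℝ} (hp : M.PosDef) : M.IsSymm :=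
  (posDef_iff_qf.mp hp).1

lemma posDef_sch (hp : D.PosDef) : (sch D).PosDef := by
  have h2 := posDef_toBlocks₂₂ hp
  have hs := posDef_symm hp
  refine posDef_iff_qf.mpr ⟨sch_symm hs, fun v hv => ?_⟩
  rw [← qf_umin hs h2.det_pos.ne' v]
  refine (posDef_iff_qf.mp hp).2 _ ?_
  intro h0
  apply hv
  ext i
  have := congrFun h0 (Sum.inl i)
  simpa using this

/-- scaling of the two blocks -/
lemma sch_scale (a b : ℝ) (hb : b ≠ 0) {M : Matrix (m ⊕ n) (m ⊕ n) ℝ}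
    (hM : M.toBlocks₂₂.det ≠ 0)
    (h11 : D.toBlocks₁₁ = (a * a) • M.toBlocks₁₁) (h12 : D.toBlocks₁₂ = (a * b) • M.toBlocks₁₂)
    (h21 : D.toBlocks₂₁ = (a * b) • M.toBlocks₂₁) (h22 : D.toBlocks₂₂ = (b * b) • M.toBlocks₂₂) :
    sch D = (a * a) • sch M := by
  have hb2 : (b * b) ≠ 0 := mul_ne_zero hb hb
  have hinv : (D.toBlocks₂₂)⁻¹ = (b * b)⁻¹ • (M.toBlocks₂₂)⁻¹ := by
    rw [h22]
    apply inv_eq_right_inv
    rw [smul_mul_smul_comm, mul_inv_cancel₀ hb2, one_smul,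
      mul_nonsing_inv _ (isUnit_iff_ne_zero.mpr hM)]
  unfold sch
  rw [hinv, h11, h12, h21, smul_sub]
  congr 1
  simp only [Matrix.smul_mul, Matrix.mul_smul, smul_smul]
  congr 1
  field_simp

end blocks

end Pool.Agent.BL.T1
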