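import Pool.Agent.Lib.MP_ccbbf6_gt.T1.Cont

/-!
# Superadditivity of the Schur complement, integral form
-/

set_option linter.unusedSectionVars false

namespace Pool.Agent.BL.T1

open Matrix MeasureTheory Set Filter Topology

variable {m n : Type*} [Fintype m] [Fintype n] [DecidableEq m] [DecidableEq n]

section super

variable {D1 D0 : Matrix (m ⊕ n) (m ⊕ n) ℝ} {X : Matrix m m ℝ}
  {Γ : ℝ → Matrix (m ⊕ n) (m ⊕ n) ℝ} {α β : ℝ}

lemma ii_qf {ι : Type*} [Fintype ι] [DecidableEq ι] {G : ℝ → Matrix ι ι ℝ} (hab : α ≤ β)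
    (hc : ContinuousOn G (Icc α β)) (ξ : ι → ℝ) :
    IntervalIntegrable (fun x => qf (G x) ξ) volume α β :=
  (continuousOn_qf hc ξ).intervalIntegrable_of_Icc hab

lemma cont_sch (hΓc : ContinuousOn Γ (Icc α β)) (hΓ : ∀ x ∈ Icc α β, (Γ x).PosDef) :
    ContinuousOn (fun x => sch (Γ x)) (Icc α β) :=
  continuousOn_sch hΓc fun x hx => (posDef_toBlocks₂₂ (hΓ x hx)).det_pos.ne'

/-- superadditivity of the Schur complement -/
theorem sch_superadd (hab : α ≤ β) (h1 : D1.IsSymm) (hd1 : D1.toBlocks₂₂.det ≠ 0)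
    (hX : ∀ v u, qf X v ≤ qf D0 (Sum.elim v u))
    (hΓc : ContinuousOn Γ (Icc α β)) (hΓ : ∀ x ∈ Icc α β, (Γ x).PosDef)
    (hint : ∀ ξ, qf D1 ξ = qf D0 ξ + ∫ x in α..β, qf (Γ x) ξ) (v : m → ℝ) :
    qf X v + ∫ x in α..β, qf (sch (Γ x)) v ≤ qf (sch D1) v := by
  rw [← qf_umin h1 hd1 v, hint]
  refine add_le_add (hX v _) ?_
  refine intervalIntegral.integral_mono_on hab (ii_qf hab (cont_sch hΓc hΓ) v)
    (ii_qf hab hΓc _) fun x hx => ?_
  exact qf_sch_le (posDef_symm (hΓ x hx)) (posDef_toBlocks₂₂ (hΓ x hx)) v _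

/-- equality case: the minimiser does not depend on `x` -/
theorem sch_superadd_eq (hab : α < β) (h1 : D1.IsSymm) (hd1 : D1.toBlocks₂₂.det ≠ 0)
    (hX : ∀ v u, qf X v ≤ qf D0 (Sum.elim v u))
    (hΓc : ContinuousOn Γ (Icc α β)) (hΓ : ∀ x ∈ Icc α β, (Γ x).PosDef)
    (hint : ∀ ξ, qf D1 ξ = qf D0 ξ + ∫ x in α..β, qf (Γ x) ξ) (v : m → ℝ)
    (heq : qf (sch D1) v ≤ qf X v + ∫ x in α..β, qf (sch (Γ x)) v) :
    ∀ x ∈ Icc α β, umin (Γ x) v = umin D1 v := by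
  have hc1 := continuousOn_qf (cont_sch hΓc hΓ) v
  have hc2 := continuousOn_qf hΓc (Sum.elim v (umin D1 v))
  have h2 : (∫ x in α..β, (qf (Γ x) (Sum.elim v (umin D1 v)) - qf (sch (Γ x)) v)) ≤ 0 := by
    rw [intervalIntegral.integral_sub (ii_qf hab.le hΓc _) (ii_qf hab.le (cont_sch hΓc hΓ) v)]
    have h3 := hX v (umin D1 v)
    have h4 := hint (Sum.elim v (umin D1 v))
    rw [qf_umin h1 hd1 v] at h4
    linarith
  have hnn : ∀ x ∈ Icc α β, 0 ≤ qf (Γ x) (Sum.elim v (umin D1 v)) - qf (sch (Γ x)) v :=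
    fun x hx => sub_nonneg.mpr
      (qf_sch_le (posDef_symm (hΓ x hx)) (posDef_toBlocks₂₂ (hΓ x hx)) v _)
  intro x hx
  by_contra hne
  have hpos : 0 < qf (Γ x) (Sum.elim v (umin D1 v)) - qf (sch (Γ x)) v := by
    refine lt_of_le_of_ne (hnn x hx) fun h0 => hne ?_
    exact (eq_umin (posDef_symm (hΓ x hx)) (posDef_toBlocks₂₂ (hΓ x hx)) (by linarith)).symm
  have h5 : 0 < ∫ x in α..β, (qf (Γ x) (Sum.elim v (umin D1 v)) - qf (sch (Γ x)) v) :=
    intervalIntegral.integral_pos hab (hc2.sub hc1)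
      (fun x hx => hnn x (Ioc_subset_Icc_self hx)) ⟨x, hx, hpos⟩
  linarith

end super

section ftc

variable {ι : Type*} [Fintype ι] [DecidableEq ι] {S Γ : ℝ → Matrix ι ι ℝ} {α β : ℝ}

lemma hasDerivAt_qf {x : ℝ} (hd : ∀ i j, HasDerivAt (fun y => S y i j) (-(Γ x i j)) x)
    (ξ : ι → ℝ) : HasDerivAt (fun y => qf (S y) ξ) (-(qf (Γ x) ξ)) x := by
  simp only [qf_eq_sum]
  rw [← Finset.sum_neg_distrib]
  refine HasDerivAt.fun_sum fun i _ => ?_
  rw [← Finset.sum_neg_distrib]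
  refine HasDerivAt.fun_sum fun j _ => ?_
  have := ((hd i j).const_mul (ξ i)).mul_const (ξ j)
  rw [mul_neg, neg_mul] at this
  exact this

lemma int_qf (hab : α ≤ β)
    (hd : ∀ x ∈ Icc α β, ∀ i j, HasDerivAt (fun y => S y i j) (-(Γ x i j)) x)
    (hc : ContinuousOn Γ (Icc α β)) (ξ : ι → ℝ) :
    qf (S α - S β) ξ = ∫ x in α..β, qf (Γ x) ξ := by
  have h1 : ∀ x ∈ uIcc α β, HasDerivAt (fun y => -(qf (S y) ξ)) (qf (Γ x) ξ) x := by
    intro x hx
    rw [uIcc_of_le hab] at hx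
    have := (hasDerivAt_qf (hd x hx) ξ).neg
    rw [neg_neg] at this
    exact this
  rw [intervalIntegral.integral_eq_sub_of_hasDerivAt h1 (ii_qf hab hc ξ), qf_sub]
  ring

/-- version with one exceptional point `c` -/
lemma int_qf_exc (hab : α ≤ β) {c : ℝ} (hS : ContinuousOn S (Icc α β))
    (hd : ∀ x ∈ Ioo α β, x ≠ c → ∀ i j, HasDerivAt (fun y => S y i j) (-(Γ x i j)) x)
    (hc : ContinuousOn Γ (Icc α β)) (ξ : ι → ℝ) :
    qf (S α - S β) ξ = ∫ x in α..β, qf (Γ x) ξ := by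
  have h1 : ∀ x ∈ Ioo (min α β) (max α β) \ {c},
      HasDerivAt (fun y => -(qf (S y) ξ)) (qf (Γ x) ξ) x := by
    intro x hx
    rw [min_eq_left hab, max_eq_right hab] at hx
    have := (hasDerivAt_qf (hd x hx.1 hx.2) ξ).neg
    rw [neg_neg] at this
    exact this
  have h2 : ContinuousOn (fun y => -(qf (S y) ξ)) (uIcc α β) := by
    rw [uIcc_of_le hab]; exact (continuousOn_qf hS ξ).neg
  rw [MeasureTheory.integral_eq_of_hasDerivAt_off_countable _ _ (countable_singleton c) h2 h1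
    (ii_qf hab hc ξ), qf_sub]
  ring

lemma posDef_of_int (hab : α < β) {D : Matrix ι ι ℝ} (hD : D.IsSymm)
    (hc : ContinuousOn Γ (Icc α β)) (hp : ∀ x ∈ Icc α β, (Γ x).PosDef)
    (h : ∀ ξ, qf D ξ = ∫ x in α..β, qf (Γ x) ξ) : D.PosDef := by
  refine posDef_iff_qf.mpr ⟨hD, fun v hv => ?_⟩
  rw [h v]
  refine intervalIntegral.intervalIntegral_pos_of_pos_on (ii_qf hab.le hc v) (fun x hx => ?_) hab
  exact (posDef_iff_qf.mp (hp x (Ioo_subset_Icc_self hx))).2 v hv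

end ftc

end Pool.Agent.BL.T1
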